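import Pool.Agent.H58.KMF.Pnu
import Pool.Agent.H73.KFIN.Max

/-!
# The maximal inequality in dimension `m + 1`: the abstract label potential

`Get J G x`: some label (of some copy) of the family `G`, at a window of `w` digits of the time and
with spatial resolution `J`, has potential at least `x`. The four properties of a label potential
which give the maximal entropy inequality `MB m (m + 1)`: monotone, the label of the points (`sta`),
the directions (`fin`), and one block of the walk (`StepN`).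
-/

set_option autoImplicit false

namespace Pool.KN

open Finset Real
open Pool.Agent.H49.Ent Pool.Agent.H32.Dense Pool.STK Pool.KA Pool.KM7

/-! ### The cost of the times -/

/-- The cost of the last `N` blocks of `K` digits of the time: `y i` is the state of the block `i`
(counted from the end), `f` the cost of the digits in this state. -/
noncomputable def cst {Y : Type} (f : Y → ℕ → ℝ) (Λ : ℝ) (K N : ℕ) {m w : ℕ} (G : Fam m w)
    (y : ℕ → G.Ω → Y) : ℝ :=
  ∑ i ∈ range N, Ex G.p (fun ω => f (y i ω) (G.T ω / 2 ^ (K * i) % 2 ^ K)) -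
    Λ * CH G.p (fun ω => G.T ω % 2 ^ (K * N)) (fun ω => ((G.l ω, G.Z ω), G.T ω / 2 ^ (K * N)))

/-- The state of a block is a function of the line, of the side information and of the digits before
the block. -/
def Adm {Y : Type} (K N : ℕ) {m w : ℕ} (G : Fam m w) (y : ℕ → G.Ω → Y) : Prop :=
  ∀ i < N, Det G.p (fun ω => ((G.l ω, G.Z ω), G.T ω / 2 ^ (K * (i + 1)))) (y i)

/-- The cost of a block of `L` digits: on the live strings `L log 2 + log μ`, on the dead strings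
`n L log 2`; minus `Λ log μ`. -/
noncomputable def fN (n : ℕ) (L K : ℕ) (η Λ : ℝ) : BL L → ℕ → ℝ :=
  fbl L (Lv L K η) (n * (L * Real.log 2)) Λ

/-- **(NNG)** The cost of a block is not negative. -/
theorem nng_fN {n L : ℕ} (hn : 1 ≤ n) (K : ℕ) (η : ℝ) {Λ : ℝ} (hΛ : 1 ≤ Λ) :
    Nng (fN n L K η Λ) Λ L := by
  refine nng_bl hΛ _ ?_
  have h1 : (1 : ℝ) ≤ n := by exact_mod_cast hn
  have h2 : 0 ≤ (L : ℝ) * Real.log 2 := by positivity
  nlinarith

/-- The positions are bounded. -/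
def Bd {m w : ℕ} (G : Fam m w) : Prop := ∀ ω i, |G.u ω i| ≤ 1

/-! ### The potential -/

/-- The type of a potential. -/
def GetT (m : ℕ) : Type 1 := ℕ → ∀ {w : ℕ}, Fam m w → ℝ → Prop

/-- The properties of a potential, up to errors `κ J`. -/
structure Pot (m : ℕ) (κ : ℝ) (Get : GetT m) : Prop where
  mono : ∀ (J w : ℕ) (G : Fam m w) (x x' : ℝ), x' ≤ x → Get J G x → Get J G x'
  sta : ∃ C : ℝ, ∀ (J : ℕ) (F : Fam m J), Bd F →
    Get J F ((m + 1) * (J * Real.log 2) - CH F.p (fun ω => (F.X J ω, F.T ω)) F.Z - κ * J - C)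
  fin : ∃ C : ℝ, ∀ (J : ℕ) (F : Fam m J) (x : ℝ), Bd F →
    Get J (F.trc 0 (Nat.zero_le _)) x →
      x ≤ m * (J * Real.log 2) - CH F.p (F.D J) F.Z + κ * J + C

/-- **(STEP)** One block of the walk. -/
def StepN (m : ℕ) (δ : ℝ) (Get : GetT m) : Prop :=
  ∃ η : ℝ, 0 < η ∧ ∀ K : ℕ, 3 / 2 ^ K ≤ η → ∃ Λ : ℝ, 1 ≤ Λ ∧ ∃ L₀ : ℕ, ∀ L ≥ L₀,
    ∀ (J w : ℕ), w + L ≤ J → ∀ (G : Fam m (w + L)) (y : ℕ → G.Ω → BL L), Bd G → Adm L 1 G y →
    ∀ x : ℝ, Get J G x →
      Get J (G.trc w (Nat.le_add_right w L))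
        (x - cst (fN (m + 1) L K η Λ) Λ L 1 G y - δ * L)

/-- **The theorem to be proved for the class of labels.** -/
def PotStmt (m : ℕ) : Prop :=
  ∀ δ : ℝ, 0 < δ → ∃ Get : GetT m, Pot m δ Get ∧ StepN m δ Get

/-- **(THEOREM B)** The bound for all families by the cost of the times. -/
def BNStmt (m : ℕ) : Prop :=
  ∀ δ : ℝ, 0 < δ → ∃ η : ℝ, 0 < η ∧ ∀ K : ℕ, 3 / 2 ^ K ≤ η → ∃ Λ : ℝ, 1 ≤ Λ ∧ ∃ L₀ : ℕ,
    ∀ L ≥ L₀, ∃ C : ℝ, ∀ (N : ℕ) (F : Fam m (L * N)) (y : ℕ → F.Ω → BL L), Bd F → Adm L N F y →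
      CH F.p (F.D (L * N)) F.Z ≤ CH F.p (fun ω => (F.X (L * N) ω, F.T ω)) F.Z -
        (L * N : ℕ) * Real.log 2 + cst (fN (m + 1) L K η Λ) Λ L N F y + δ * (L * N : ℕ) + C

end Pool.KN
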