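import Pool.Agent.H58.KN.Joint
import Pool.Agent.H73.KQ1.Q1

/-!
# The maximal function inequality from the bound by the cost of the times, any dimension
-/

set_option autoImplicit false

namespace Pool.KN

/-- **THEOREM B implies Q1**, in every dimension `m + 1`. -/
theorem q1_of_bn {m : ℕ} (hm : 1 ≤ m) (h : BNStmt m) {q : ENNReal}
    (hq : ENNReal.ofReal (1 + 1 / (m : ℝ)) < q) : Pool.KFIN.Q1 m q :=
  Pool.KFIN.q1_of_MB hm (by rw [add_comm]; exact mb_of_bn h) hq

end Pool.KN
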