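import Pool.Agent.H58.KMF.Cost
import Pool.Agent.H58.KN.Stm

/-!
# The cost of one block for the own kernel, any price of the dead digits
-/

set_option autoImplicit false

namespace Pool.KN

open Finset Real
open Pool.Agent.H49.Ent Pool.Agent.H32.Dense Pool.STK Pool.KA Pool.KAL Pool.KM7 Pool.KMF

variable {m J : ℕ}

open Classical in
/-- The cost of a block without the multiple of the relative entropy. -/
noncomputable def gN (n : ℕ) (L K : ℕ) (η : ℝ) (μ : ℕ → ℝ) (t : ℕ) : ℝ :=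
  if Lv L K η μ t then L * Real.log 2 + Real.log (μ t) else n * (L * Real.log 2)

lemma fN_eq (n L K : ℕ) (η Λ : ℝ) (μ : BL L) (t : ℕ) :
    fN n L K η Λ μ t = gN n L K η μ.1 t - Λ * Real.log (μ.1 t) := rfl

/-- **The cost of one block.** -/
theorem cost_blk (F : Fam m J) {n w L M K R : ℕ} (hn : 1 ≤ n) (hL : w + L ≤ J)
    (hLM : L = M * K) (hK : 0 < K) (hM : 0 < M) (hR : 0 < R) {x r c η η' : ℝ} (hx : 0 ≤ x) (hr : 0 ≤ r) (hc0 : 0 < c)
    (hc1 : c ≤ 1 / 2)
    (hat : ∀ (Ω S : Type) [Fintype Ω] (q : Ω → ℝ), (∀ ω, 0 ≤ q ω) →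
      ∑ ω, q ω = 1 → ∀ (X : Ω → S) (F : Finset S), (∀ ω, 0 < q ω → X ω ∈ F) → F.card ≤ 2 ^ K →
      ∀ s, 1 - c < law q X s → H q X < x * K)
    (hη : 0 < η) (hη' : (1 - c) ^ R ≤ η') (hη2 : 1 / 2 ^ ((2 * R + 1) * K) ≤ η')
    {ω : F.Ω} (hω : 0 < F.p ω) :
    Ex (cond F.p (Vw F w) (Vw F w ω)) (fun υ =>
      gN n L ((2 * R + 1) * K) η (mx (own F w L ω) L) (bk F w L υ)) ≤
      n * (L * Real.log 2 - hk F.p (Vw F) w L ω) + 2 * n * x * L +
      (4 * r / η + 12 * η' / η ^ 2) * ((n * L + 1) * Real.log 2) +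
      n * (L * Real.log 2) *
        ind (2 * x ≤ rk F.p (Vw F) w L ω ∧ r ≤ low F.p (Vw F) w M K x ω) := by
  classical
  have hp := F.isLaw.nonneg
  have hl2 : 0 < Real.log 2 := Real.log_pos (by norm_num)
  have hL0 : 0 < L := by
    rw [hLM]
    exact Nat.mul_pos hM hK
  have hL' : (0 : ℝ) < L := by exact_mod_cast hL0
  have hη0 : 0 ≤ η' := le_trans (by positivity) hη2
  set q := cond F.p (Vw F w) (Vw F w ω) with hq
  have hq0 : ∀ υ, 0 ≤ q υ := cond_nonneg hp _ _
  have hq1 : ∑ υ, q υ = 1 := sum_cond F.p _ (law_pos hp _ hω).ne'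
  have hX : ∀ υ, bk F w L υ < 2 ^ L := fun υ => Nat.mod_lt _ (by positivity)
  have h0 := own_nonneg F w L ω
  have hs := (own_sum F w L hω).le
  set ν := mx (own F w L ω) L with hν
  have hlog : ∀ υ, Real.log (ν (bk F w L υ)) ≤ 0 := fun υ =>
    Real.log_nonpos (mx_nonneg h0 L _) (mx_le_one h0 hs (hX υ))
  have hlog2 : ∀ υ, -((L + 1) * Real.log 2) ≤ Real.log (ν (bk F w L υ)) := by
    intro υ
    have h1 := Real.log_le_log (by positivity) (mx_ge h0 L (bk F w L υ))
    rw [Real.log_div one_ne_zero (by positivity), Real.log_one, Real.log_pow] at h1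
    push_cast at h1
    linarith
  have hhk0 := HBL.hk_nonneg hp (Vw F) w L hω
  have hhk1 := vw_hk F w L hω
  have herr : 0 ≤ (4 * r / η + 12 * η' / η ^ 2) * ((n * L + 1) * Real.log 2) := by positivity
  have hn1 : (1 : ℝ) ≤ n := by exact_mod_cast hn
  have hL2 : 0 ≤ (L : ℝ) * Real.log 2 := by positivity
  have hnL : (L : ℝ) * Real.log 2 ≤ n * (L * Real.log 2) := by nlinarith
  have hnk : L * Real.log 2 - hk F.p (Vw F) w L ω ≤
      n * (L * Real.log 2 - hk F.p (Vw F) w L ω) := by nlinarith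
  -- the trivial bound
  have htriv : Ex q (fun υ => gN n L ((2 * R + 1) * K) η ν (bk F w L υ)) ≤
      n * (L * Real.log 2) := by
    have h1 : Ex q (fun υ => gN n L ((2 * R + 1) * K) η ν (bk F w L υ)) ≤
        Ex q (fun _ => n * (L * Real.log 2)) := by
      refine Ex_mono hq0 fun υ _ => ?_
      unfold gN
      split_ifs
      · have := hlog υ
        linarith
      · exact le_rfl
    rwa [Ex_const hq1] at h1
  by_cases h2x : 2 * x ≤ rk F.p (Vw F) w L ω
  · by_cases hlow : r ≤ low F.p (Vw F) w M K x ω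
    · rw [ind_true ⟨h2x, hlow⟩]
      have h3 : 0 ≤ 2 * n * x * L := by positivity
      linarith
    · rw [ind_false fun h => hlow h.2, mul_zero, add_zero]
      push Not at hlow
      have hnb := nbad_blk F hL hLM hK hM hR hc0 hc1 hat hη hη' hη2 hω
      rw [← hq, ← hν] at hnb
      set K' := (2 * R + 1) * K with hK'
      have hPr : Ex q (fun υ => ind (¬ Lv L K' η ν (bk F w L υ))) ≤
          4 * r / η + 12 * η' / η ^ 2 := by
        have h3 : Ex q (fun υ => η / 2 * L * ind (¬ Lv L K' η ν (bk F w L υ))) ≤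
            Ex q (fun υ => (nbad ν L K' η (bk F w L υ) 0 L : ℝ)) := by
          refine Ex_mono hq0 fun υ _ => ?_
          by_cases h : Lv L K' η ν (bk F w L υ)
          · rw [ind_false (not_not.2 h), mul_zero]
            exact Nat.cast_nonneg _
          · rw [ind_true h, mul_one]
            unfold Lv at h
            push Not at h
            exact h.le
        rw [Ex_smul] at h3
        have h4 : 2 * (L : ℝ) * low F.p (Vw F) w M K x ω ≤ 2 * L * r :=
          mul_le_mul_of_nonneg_left hlow.le (by positivity)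
        have h5 : η / 2 * L * Ex q (fun υ => ind (¬ Lv L K' η ν (bk F w L υ))) ≤
            η / 2 * L * (4 * r / η + 12 * η' / η ^ 2) := by
          have e : η / 2 * L * (4 * r / η + 12 * η' / η ^ 2) = 2 * L * r + 6 * (η' / η) * L := by
            field_simp
            ring
          rw [e]
          linarith
        exact le_of_mul_le_mul_left h5 (by positivity)
      have h3 : Ex q (fun υ => gN n L K' η ν (bk F w L υ)) ≤
          Ex q (fun υ => (L * Real.log 2 + Real.log (ν (bk F w L υ))) +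
            ((n * L + 1) * Real.log 2) * ind (¬ Lv L K' η ν (bk F w L υ))) := by
        refine Ex_mono hq0 fun υ _ => ?_
        unfold gN
        by_cases h : Lv L K' η ν (bk F w L υ)
        · rw [if_pos h, ind_false (not_not.2 h), mul_zero, add_zero]
        · rw [if_neg h, ind_true h, mul_one]
          have := hlog2 υ
          linarith
      have e1 : Ex q (fun υ => (L * Real.log 2 + Real.log (ν (bk F w L υ))) +
            ((n * L + 1) * Real.log 2) * ind (¬ Lv L K' η ν (bk F w L υ))) =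
          L * Real.log 2 + Ex q (fun υ => Real.log (ν (bk F w L υ))) +
            ((n * L + 1) * Real.log 2) * Ex q (fun υ => ind (¬ Lv L K' η ν (bk F w L υ))) := by
        rw [Ex_add q (fun υ => L * Real.log 2 + Real.log (ν (bk F w L υ)))
          (fun υ => ((n * L + 1) * Real.log 2) * ind (¬ Lv L K' η ν (bk F w L υ))), Ex_smul,
          Ex_add q (fun _ => L * Real.log 2) (fun υ => Real.log (ν (bk F w L υ))), Ex_const hq1]
      rw [e1] at h3
      have h4 := gibbs_mx hq0 hq1 (bk F w L) hX h0 hs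
      rw [← hν, hq, H_bk F hL ω, ← hq] at h4
      have h5 := mul_le_mul_of_nonneg_left hPr (show 0 ≤ (n * (L : ℝ) + 1) * Real.log 2 by
        positivity)
      have h6 : 0 ≤ 2 * n * x * L := by positivity
      have h7 : (n * (L : ℝ) + 1) * Real.log 2 * (4 * r / η + 12 * η' / η ^ 2) =
          (4 * r / η + 12 * η' / η ^ 2) * ((n * L + 1) * Real.log 2) := by ring
      linarith
  · rw [ind_false fun h => h2x h.1, mul_zero, add_zero]
    push Not at h2x
    have h3 : hk F.p (Vw F) w L ω < 2 * x * L := by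
      unfold rk at h2x
      rwa [div_lt_iff₀ hL'] at h2x
    have h4 : (n : ℝ) * hk F.p (Vw F) w L ω ≤ n * (2 * x * L) :=
      mul_le_mul_of_nonneg_left h3.le (by positivity)
    linarith

/-- The cost of one block, in the mean. -/
theorem cost_mean (F : Fam m J) {n w L M K R : ℕ} (hn : 1 ≤ n) (hL : w + L ≤ J)
    (hLM : L = M * K) (hK : 0 < K) (hM : 0 < M) (hR : 0 < R) {x r c η η' : ℝ} (hx : 0 ≤ x) (hr : 0 ≤ r) (hc0 : 0 < c)
    (hc1 : c ≤ 1 / 2)
    (hat : ∀ (Ω S : Type) [Fintype Ω] (q : Ω → ℝ), (∀ ω, 0 ≤ q ω) →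
      ∑ ω, q ω = 1 → ∀ (X : Ω → S) (F : Finset S), (∀ ω, 0 < q ω → X ω ∈ F) → F.card ≤ 2 ^ K →
      ∀ s, 1 - c < law q X s → H q X < x * K)
    (hη : 0 < η) (hη' : (1 - c) ^ R ≤ η') (hη2 : 1 / 2 ^ ((2 * R + 1) * K) ≤ η') :
    Ex F.p (fun ω => gN n L ((2 * R + 1) * K) η (mx (own F w L ω) L) (bk F w L ω)) ≤
      n * (L * Real.log 2 - CH F.p (bk F w L) (Vw F w)) + 2 * n * x * L +
      (4 * r / η + 12 * η' / η ^ 2) * ((n * L + 1) * Real.log 2) +
      n * (L * Real.log 2) * Ex F.p (fun ω =>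
        ind (2 * x ≤ rk F.p (Vw F) w L ω ∧ r ≤ low F.p (Vw F) w M K x ω)) := by
  classical
  have hp := F.isLaw.nonneg
  have h1 := F.isLaw.sum_one
  set g : F.Ω → ℝ := fun ω =>
    gN n L ((2 * R + 1) * K) η (mx (own F w L ω) L) (bk F w L ω) with hg
  have e1 : Ex F.p g = Ex F.p (fun ω => Ex (cond F.p (Vw F w) (Vw F w ω)) (fun υ =>
      gN n L ((2 * R + 1) * K) η (mx (own F w L ω) L) (bk F w L υ))) := by
    rw [← Ex_tow hp (Vw F w) g]
    refine Ex_congr_pos hp fun ω hω => ?_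
    refine Ex_congr_pos (cond_nonneg hp _ _) fun υ hυ => ?_
    obtain ⟨hυ0, hυw⟩ := (cond_pos_iff hp _ _ υ).1 hυ
    have e : own F w L υ = own F w L ω := own_det F w L υ ω hυ0 hω hυw
    rw [hg]
    dsimp only
    rw [e]
  rw [e1]
  have h2 : Ex F.p (fun ω => Ex (cond F.p (Vw F w) (Vw F w ω)) (fun υ =>
      gN n L ((2 * R + 1) * K) η (mx (own F w L ω) L) (bk F w L υ))) ≤
      Ex F.p (fun ω => (n * (L * Real.log 2) + 2 * n * x * L +
        (4 * r / η + 12 * η' / η ^ 2) * ((n * L + 1) * Real.log 2)) +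
        ((-(n : ℝ)) * hk F.p (Vw F) w L ω + n * (L * Real.log 2) *
        ind (2 * x ≤ rk F.p (Vw F) w L ω ∧ r ≤ low F.p (Vw F) w M K x ω))) := by
    refine Ex_mono hp fun ω hω => ?_
    have := cost_blk F hn hL hLM hK hM hR hx hr hc0 hc1 hat hη hη' hη2 hω
    linarith
  refine h2.trans (le_of_eq ?_)
  rw [Ex_add F.p (fun _ => n * (L * Real.log 2) + 2 * n * x * L +
        (4 * r / η + 12 * η' / η ^ 2) * ((n * L + 1) * Real.log 2)), Ex_const h1,
    Ex_add F.p (fun ω => (-(n : ℝ)) * hk F.p (Vw F) w L ω), Ex_smul, Ex_smul]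
  have h3 : Ex F.p (fun ω => hk F.p (Vw F) w L ω) = CH F.p (bk F w L) (Vw F w) := by
    rw [← Pool.KAL.CDF.Ex_H hp (bk F w L) (Vw F w)]
    refine Ex_congr_pos hp fun ω _ => ?_
    exact (H_bk F hL ω).symm
  rw [h3]
  ring

end Pool.KN
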