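import Pool.Agent.H58.KN.Stm
import Pool.Agent.H32.Dense.EntX

/-!
# Reduction to families whose positions are in the unit cube
-/

set_option autoImplicit false

namespace Pool.KN

open Finset Real
open Pool.Agent.H49.Ent Pool.Agent.H32.Dense Pool.STK Pool.KA

variable {m J : ℕ}

/-- The family with positions in the unit cube. -/
noncomputable def sft (F : Fam m J) : Fam m J where
  Ω := F.Ω
  ζ := (Fin m → ℤ) × F.ζ
  fin := F.fin
  p := F.p
  u := fun ω i => Int.fract (F.u ω i)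
  d := F.d
  T := F.T
  Z := fun ω => (fun i => ⌊F.u ω i⌋, F.Z ω)
  isLaw := F.isLaw
  dir := F.dir
  tim := F.tim

lemma sft_bd (F : Fam m J) : Bd (sft F) := fun ω i => by
  show |Int.fract (F.u ω i)| ≤ 1
  rw [abs_of_nonneg (Int.fract_nonneg _)]
  exact (Int.fract_lt_one _).le

lemma t_le (F : Fam m J) (ω : F.Ω) : 0 ≤ F.t ω ∧ F.t ω ≤ 1 := by
  unfold Fam.t
  refine ⟨by positivity, ?_⟩
  rw [div_le_one (by positivity)]
  exact_mod_cast (F.tim ω).le

lemma td_le (F : Fam m J) (ω : F.Ω) (i : Fin m) : |F.t ω * F.d ω i| ≤ 1 := by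
  obtain ⟨h1, h2⟩ := t_le F ω
  rw [abs_mul, abs_of_nonneg h1]
  calc _ ≤ 1 * 1 := mul_le_mul h2 (F.dir ω i) (abs_nonneg _) (by norm_num)
    _ = 1 := by norm_num

/-- The position of the shifted family. -/
lemma sft_X (F : Fam m J) (ω : F.Ω) (i : Fin m) :
    (sft F).X J ω i = F.X J ω i - 2 ^ J * ⌊F.u ω i⌋ := by
  show ⌊(2 : ℝ) ^ J * (Int.fract (F.u ω i) + F.t ω * F.d ω i)⌋ =
    ⌊(2 : ℝ) ^ J * (F.u ω i + F.t ω * F.d ω i)⌋ - 2 ^ J * ⌊F.u ω i⌋
  have e : (2 : ℝ) ^ J * (Int.fract (F.u ω i) + F.t ω * F.d ω i) =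
      (2 : ℝ) ^ J * (F.u ω i + F.t ω * F.d ω i) - ((2 ^ J * ⌊F.u ω i⌋ : ℤ) : ℝ) := by
    unfold Int.fract
    push_cast
    ring
  rw [e, Int.floor_sub_intCast]

/-- The three terms of the inequality for the shifted family. -/
theorem sft_le (F : Fam m J) :
    CH F.p (F.D J) F.Z - CH F.p (fun ω => (F.X J ω, F.T ω)) F.Z ≤
      CH (sft F).p ((sft F).D J) (sft F).Z -
        CH (sft F).p (fun ω => ((sft F).X J ω, (sft F).T ω)) (sft F).Z +
        m * Real.log (2 * 3 + 1) := by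
  have hp := F.isLaw
  have hp0 := hp.nonneg
  set c : F.Ω → Fin m → ℤ := fun ω i => ⌊F.u ω i⌋ with hc
  set X' : F.Ω → Fin m → ℤ := (sft F).X J with hX'
  have h1 := CH_le_add hp0 (F.D J) c F.Z
  have h2 := CH_chain hp0 (fun ω => (X' ω, F.T ω)) c F.Z
  have h3 := CH_le_add hp0 (fun ω => ((X' ω, F.T ω), c ω)) (fun ω => (F.X J ω, F.T ω)) F.Z
  have h4 : CH F.p (fun ω => ((X' ω, F.T ω), c ω)) (fun ω => ((F.X J ω, F.T ω), F.Z ω)) =
      CH F.p c (fun ω => ((F.X J ω, F.T ω), F.Z ω)) := by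
    refine CH_congr hp0 ?_ ?_ (fun _ _ _ _ h => h) (fun _ _ _ _ h => h)
    · intro a b _ _ h
      exact (Prod.ext_iff.mp (Prod.ext_iff.mp h).1).2
    · intro a b _ _ h
      have e1 : c a = c b := (Prod.ext_iff.mp h).1
      have e0 : (F.X J a, F.T a) = (F.X J b, F.T b) :=
        (Prod.ext_iff.mp (Prod.ext_iff.mp h).2).1
      have e2 : F.X J a = F.X J b := (Prod.ext_iff.mp e0).1
      have e3 : F.T a = F.T b := (Prod.ext_iff.mp e0).2
      refine Prod.ext (Prod.ext ?_ e3) e1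
      funext i
      show (sft F).X J a i = (sft F).X J b i
      rw [sft_X, sft_X, e2, show ⌊F.u a i⌋ = ⌊F.u b i⌋ from congrFun e1 i]
  have h5 := CH_le_vec hp0 hp.sum_one c (fun ω => ((F.X J ω, F.T ω), F.Z ω)) (fun _ => 3)
    (fun ω ω' _ _ h k => by
      have hX : F.X J ω k = F.X J ω' k :=
        congrFun (Prod.ext_iff.mp (Prod.ext_iff.mp h).1).1 k
      change ⌊(2 : ℝ) ^ J * F.x ω k⌋ = ⌊(2 : ℝ) ^ J * F.x ω' k⌋ at hX
      have c1 := abs_le.1 (td_le F ω k)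
      have c2 := abs_le.1 (td_le F ω' k)
      change |((⌊F.u ω k⌋ - ⌊F.u ω' k⌋ : ℤ) : ℝ)| ≤ 3
      have hxx : ∀ ω, F.x ω k = F.u ω k + F.t ω * F.d ω k := fun _ => rfl
      have a1 := Int.floor_le ((2 : ℝ) ^ J * F.x ω k)
      have a2 := Int.lt_floor_add_one ((2 : ℝ) ^ J * F.x ω k)
      have b1 := Int.floor_le ((2 : ℝ) ^ J * F.x ω' k)
      have b2 := Int.lt_floor_add_one ((2 : ℝ) ^ J * F.x ω' k)
      rw [hX] at a1 a2
      have hAB : |(2 : ℝ) ^ J * F.x ω k - (2 : ℝ) ^ J * F.x ω' k| ≤ 1 := by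
        rw [abs_le]
        constructor <;> linarith
      have p1 : (1 : ℝ) ≤ 2 ^ J := one_le_pow₀ (by norm_num)
      have hxy : |F.x ω k - F.x ω' k| ≤ 1 := by
        rw [← mul_sub, abs_mul, abs_of_nonneg (a := (2 : ℝ) ^ J) (by positivity)] at hAB
        nlinarith [abs_nonneg (F.x ω k - F.x ω' k)]
      rw [hxx, hxx] at hxy
      have hxy' := abs_le.1 hxy
      have d1 := Int.floor_le (F.u ω k)
      have d2 := Int.lt_floor_add_one (F.u ω k)
      have d3 := Int.floor_le (F.u ω' k)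
      have d4 := Int.lt_floor_add_one (F.u ω' k)
      have hlt : ((⌊F.u ω k⌋ - ⌊F.u ω' k⌋ : ℤ) : ℝ) < 4 := by
        push_cast
        linarith [hxy'.2, c1.1, c2.2]
      have hgt : (-4 : ℝ) < ((⌊F.u ω k⌋ - ⌊F.u ω' k⌋ : ℤ) : ℝ) := by
        push_cast
        linarith [hxy'.1, c1.2, c2.1]
      have hlt' : ⌊F.u ω k⌋ - ⌊F.u ω' k⌋ < 4 := by exact_mod_cast hlt
      have hgt' : -4 < ⌊F.u ω k⌋ - ⌊F.u ω' k⌋ := by exact_mod_cast hgt
      have : |⌊F.u ω k⌋ - ⌊F.u ω' k⌋| ≤ 3 := by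
        rw [abs_le]
        constructor <;> omega
      exact_mod_cast this)
  rw [Ex_const hp.sum_one] at h5
  rw [h4] at h3
  change CH F.p (F.D J) F.Z - CH F.p (fun ω => (F.X J ω, F.T ω)) F.Z ≤
      CH F.p (F.D J) (fun ω => (c ω, F.Z ω)) -
        CH F.p (fun ω => (X' ω, F.T ω)) (fun ω => (c ω, F.Z ω)) + m * Real.log (2 * 3 + 1)
  linarith

/-- The entropy of the time is the same. -/
theorem sft_T (F : Fam m J) : CH (sft F).p (sft F).T (fun ω => ((sft F).l ω, (sft F).Z ω)) =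
    CH F.p F.T (fun ω => (F.l ω, F.Z ω)) := by
  have hp0 := F.isLaw.nonneg
  refine CH_congr (p := F.p) hp0 (fun _ _ _ _ h => (Prod.ext_iff.mp h).1)
    (fun _ _ _ _ h => (Prod.ext_iff.mp h).1) ?_ ?_
  · intro a b _ _ h
    have h1 : (fun i => Int.fract (F.u a i), F.d a) = (fun i => Int.fract (F.u b i), F.d b) :=
      (Prod.ext_iff.mp h).1
    have h2 : (fun i => ⌊F.u a i⌋, F.Z a) = (fun i => ⌊F.u b i⌋, F.Z b) :=
      (Prod.ext_iff.mp h).2
    refine Prod.ext (Prod.ext ?_ (Prod.ext_iff.mp h1).2) (Prod.ext_iff.mp h2).2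
    funext i
    have e1 : Int.fract (F.u a i) = Int.fract (F.u b i) := congrFun (Prod.ext_iff.mp h1).1 i
    have e2 : ⌊F.u a i⌋ = ⌊F.u b i⌋ := congrFun (Prod.ext_iff.mp h2).1 i
    show F.u a i = F.u b i
    rw [← Int.floor_add_fract (F.u a i), ← Int.floor_add_fract (F.u b i), e1, e2]
  · intro a b _ _ h
    have h1 : (F.u a, F.d a) = (F.u b, F.d b) := (Prod.ext_iff.mp h).1
    have h2 : F.Z a = F.Z b := (Prod.ext_iff.mp h).2
    have e1 : F.u a = F.u b := (Prod.ext_iff.mp h1).1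
    have e2 : F.d a = F.d b := (Prod.ext_iff.mp h1).2
    refine Prod.ext (Prod.ext ?_ e2) (Prod.ext ?_ h2)
    · show (fun i => Int.fract (F.u a i)) = fun i => Int.fract (F.u b i)
      rw [e1]
    · show (fun i => ⌊F.u a i⌋) = fun i => ⌊F.u b i⌋
      rw [e1]

end Pool.KN
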