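import Pool.Agent.H58.KN.Est
import Pool.Agent.H58.KN.Red
import Pool.Agent.H58.KMF.Joint

/-!
# From the bound by the cost of the times to the maximal inequality, any dimension
-/

set_option autoImplicit false

namespace Pool.KN

open Finset Real
open Pool.Agent.H49.Ent Pool.Agent.H32.Dense Pool.STK Pool.KA Pool.KAL Pool.KM7 Pool.KMF

/-- **One scale.** -/
theorem scl {m : ℕ} (hBN : BNStmt m) {ε : ℝ} (hε : 0 < ε) :
    ∃ x : ℝ, 0 < x ∧ ∃ r : ℝ, 0 < r ∧ ∀ K : ℕ, 0 < K → ∃ L₁ : ℕ, ∀ M : ℕ, 0 < M → L₁ ≤ M * K →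
      ∃ J₁ : ℕ, ∀ N J : ℕ, J = M * K * N → J₁ ≤ J → ∀ F : Fam m J, Bd F →
      CH F.p (F.D J) F.Z + (J : ℝ) * Real.log 2 - CH F.p (fun ω => (F.X J ω, F.T ω)) F.Z ≤
        (m + 1) * ((J : ℝ) * Real.log 2 - CH F.p F.T (fun ω => (F.l ω, F.Z ω))) + ε * J +
        (m + 1) * (((M * K : ℕ) : ℝ) * Real.log 2) * ∑ j ∈ range N, Ex F.p (fun ω =>
          ind (2 * x ≤ rk F.p (Vw F) (j * (M * K)) (M * K) ω ∧
            r ≤ low F.p (Vw F) (j * (M * K)) M K x ω)) := by
  have hl2 : 0 < Real.log 2 := Real.log_pos (by norm_num)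
  have hl1 : Real.log 2 < 0.7 := by
    have := Real.log_two_lt_d9
    linarith
  obtain ⟨n, hn⟩ : ∃ n : ℕ, n = m + 1 := ⟨_, rfl⟩
  have hn1 : 1 ≤ n := by omega
  have hnm : (n : ℝ) = m + 1 := by
    rw [hn]
    push_cast
    rfl
  have hn1' : (1 : ℝ) ≤ n := by exact_mod_cast hn1
  have hn0 : (0 : ℝ) < n := by linarith
  obtain ⟨η, hη, hbase⟩ := hBN (ε / 8) (by positivity)
  have hη' : 0 < ε * η ^ 2 / (384 * n) := by positivity
  refine ⟨ε / (16 * n), by positivity, ε * η / (128 * n), by positivity, fun K hK => ?_⟩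
  obtain ⟨c, hc0, hc1, hat⟩ := exists_atom hK (show 0 < ε / (16 * n) by positivity)
  obtain ⟨R, hR, hR1, hR2, hR3⟩ := exists_R hc0 hc1 hη hη' hK
  obtain ⟨Λ, hΛ, L₀, hthm⟩ := hbase ((2 * R + 1) * K) hR3
  have hΛ0 : 0 < Λ := by linarith
  obtain ⟨L₃, hL₃⟩ := exists_nat_ge (8 * Λ / ε)
  refine ⟨max L₀ (max L₃ 1), fun M hM hL => ?_⟩
  set L := M * K with hLdef
  have l0 : L₀ ≤ L := (le_max_left _ _).trans hL
  have l3 : L₃ ≤ L := ((le_max_left _ _).trans (le_max_right _ _)).trans hL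
  have l1 : 1 ≤ L := ((le_max_right _ _).trans (le_max_right _ _)).trans hL
  have hL1 : (1 : ℝ) ≤ L := by exact_mod_cast l1
  obtain ⟨C, hC⟩ := hthm L l0
  obtain ⟨J₃, hJ₃⟩ := exists_nat_ge (8 * C / ε)
  refine ⟨J₃, ?_⟩
  intro N J hJ hJ1 F hF
  subst hJ
  have hLN : ((L * N : ℕ) : ℝ) = L * N := by push_cast; ring
  have hN0 : (0 : ℝ) ≤ N := Nat.cast_nonneg N
  have h1 := hC N F (yo F L N) hF (yo_adm F)
  have h2 := est hn1 hLdef hK hM hR (x := ε / (16 * n)) (r := ε * η / (128 * n)) (c := c) (η := η)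
    (η' := ε * η ^ 2 / (384 * n)) (Λ := Λ) (by positivity) (by positivity) hc0 hc1 hat hη hR1 hR2
    hΛ0.le F
  rw [← hn] at h1
  -- the errors
  have e1 : 4 * (ε * η / (128 * n)) / η + 12 * (ε * η ^ 2 / (384 * n)) / η ^ 2 =
      ε / (16 * n) := by
    field_simp
    ring
  rw [e1] at h2
  have e2 : (N : ℝ) * (2 * n * (ε / (16 * n)) * L + ε / (16 * n) * ((n * L + 1) * Real.log 2) +
      Λ * Real.log 2) ≤ ε * 3 / 8 * (L * N) := by
    have e3 : Λ * Real.log 2 ≤ ε / 8 * L := by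
      have e4 : 8 * Λ / ε ≤ L := hL₃.trans (by exact_mod_cast l3)
      rw [div_le_iff₀ hε] at e4
      have e5 : Λ * Real.log 2 ≤ Λ * 1 := mul_le_mul_of_nonneg_left (by linarith) hΛ0.le
      linarith
    have e4 : ε / (16 * n) * ((n * L + 1) * Real.log 2) ≤ ε / 8 * L := by
      have e5 : (n * L + 1) * Real.log 2 ≤ (2 * n * L) * 1 := by
        refine mul_le_mul ?_ (by linarith) hl2.le (by positivity)
        nlinarith
      calc ε / (16 * n) * ((n * L + 1) * Real.log 2) ≤ ε / (16 * n) * ((2 * n * L) * 1) :=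
            mul_le_mul_of_nonneg_left e5 (by positivity)
        _ = ε / 8 * L := by
            field_simp
            ring
    have e6 : 2 * n * (ε / (16 * n)) * L = ε / 8 * L := by
      field_simp
      ring
    calc _ ≤ (N : ℝ) * (ε * 3 / 8 * L) := by
          refine mul_le_mul_of_nonneg_left ?_ hN0
          linarith
      _ = _ := by ring
  have e14 : C ≤ ε / 8 * ((L * N : ℕ) : ℝ) := by
    have e15 : 8 * C / ε ≤ ((L * N : ℕ) : ℝ) := hJ₃.trans (by exact_mod_cast hJ1)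
    rw [div_le_iff₀ hε] at e15
    linarith
  rw [← hnm]
  rw [hLN] at *
  have e17 : 0 ≤ ε * (L * N) := by positivity
  linarith

/-- **The joint.** The bound by the cost of the times implies the maximal entropy inequality. -/
theorem mb_of_bn {m : ℕ} (hBN : BNStmt m) : Pool.KFIN.MB m (m + 1) := by
  classical
  have hl2 : 0 < Real.log 2 := Real.log_pos (by norm_num)
  have hl1 : Real.log 2 < 0.7 := by
    have := Real.log_two_lt_d9
    linarith
  have hm0 : (0 : ℝ) ≤ m := Nat.cast_nonneg m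
  refine mb_of_mult (by positivity) fun ε hε => ?_
  obtain ⟨x, hx, r, hr, hK⟩ := scl hBN (show 0 < ε / 4 by positivity)
  choose! f hf using hK
  set M : ℕ → ℕ := fun i => max 1 (f (sc f i)) with hM
  have hM0 : ∀ i, 0 < M i := fun i => lt_of_lt_of_le Nat.one_pos (le_max_left _ _)
  have hstep : ∀ i, sc f (i + 1) = M i * sc f i := fun _ => rfl
  have hML : ∀ i, f (sc f i) ≤ M i * sc f i := fun i =>
    (le_max_right 1 _).trans (Nat.le_mul_of_pos_right _ (sc_pos f i))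
  have hJ : ∀ i, ∃ J₁ : ℕ, ∀ N J : ℕ, J = M i * sc f i * N → J₁ ≤ J → ∀ F : Fam m J, Bd F →
      CH F.p (F.D J) F.Z + (J : ℝ) * Real.log 2 - CH F.p (fun ω => (F.X J ω, F.T ω)) F.Z ≤
        (m + 1) * ((J : ℝ) * Real.log 2 - CH F.p F.T (fun ω => (F.l ω, F.Z ω))) + ε / 4 * J +
        (m + 1) * (((M i * sc f i : ℕ) : ℝ) * Real.log 2) * ∑ j ∈ range N, Ex F.p (fun ω =>
          ind (2 * x ≤ rk F.p (Vw F) (j * (M i * sc f i)) (M i * sc f i) ω ∧
            r ≤ low F.p (Vw F) (j * (M i * sc f i)) (M i) (sc f i) x ω)) := fun i =>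
    hf (sc f i) (sc_pos f i) (M i) (hM0 i) (hML i)
  choose J₁ hJ₁ using hJ
  obtain ⟨Ns, hNs⟩ := exists_nat_ge (4 * (m + 1) / (ε * r * x ^ 2))
  set S := Ns + 1 with hS
  have hS0 : (0 : ℝ) < S := by
    rw [hS]
    positivity
  have hSb : 4 * (m + 1) / (ε * r * x ^ 2) ≤ S := by
    rw [hS]
    push_cast
    linarith
  obtain ⟨c7, hc7⟩ : ∃ c7 : ℝ, c7 = m * Real.log (2 * 3 + 1) := ⟨_, rfl⟩
  obtain ⟨J₄, hJ₄⟩ := exists_nat_ge (2 * c7 / ε)
  refine ⟨sc f S, sc_pos f S, (∑ i ∈ range S, J₁ i) + 1 + J₄, fun n hn => ?_⟩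
  have hn1 : 1 ≤ n := by omega
  obtain ⟨J, hJdef⟩ : ∃ J, J = sc f S * n := ⟨_, rfl⟩
  rw [← hJdef]
  intro F₀
  -- positions in the unit cube
  have hred := sft_le F₀
  rw [← hc7] at hred
  have hredT := sft_T F₀
  have hBd := sft_bd F₀
  set F : Fam m J := sft F₀ with hFdef
  have hJpos : 0 < J := by
    rw [hJdef]
    exact Nat.mul_pos (sc_pos f S) hn1
  have hnJ : n ≤ J := by
    rw [hJdef]
    exact Nat.le_mul_of_pos_left n (sc_pos f S)
  have hC : c7 ≤ ε / 2 * J := by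
    have h1 : (J₄ : ℝ) ≤ J := by
      have : J₄ ≤ J := by omega
      exact_mod_cast this
    have h2 := hJ₄.trans h1
    rw [div_le_iff₀ hε] at h2
    linarith
  have hJge : ∀ i < S, J₁ i ≤ J := by
    intro i hi
    have h1 := Finset.single_le_sum (f := J₁) (fun _ _ => Nat.zero_le _) (mem_range.2 hi)
    omega
  set B : ℕ → ℕ := fun i => max 1 (J / sc f i) with hBdef
  have hB0 : ∀ i, 0 < B i := fun i => lt_of_lt_of_le Nat.one_pos (le_max_left _ _)
  have hdv : ∀ i ≤ S, sc f i ∣ J := fun i hi => (sc_dvd f hi).trans (Dvd.intro _ hJdef.symm)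
  have hBv : ∀ i ≤ S, B i = J / sc f i := by
    intro i hi
    have h1 : 1 ≤ J / sc f i := by
      rw [Nat.le_div_iff_mul_le (sc_pos f i), one_mul]
      exact Nat.le_of_dvd hJpos (hdv i hi)
    exact max_eq_right h1
  have hBM : ∀ i < S, B i = B (i + 1) * M i := by
    intro i hi
    rw [hBv i hi.le, hBv (i + 1) hi]
    obtain ⟨k, hk⟩ := hdv (i + 1) hi
    have h1 := sc_pos f i
    have h2 := sc_pos f (i + 1)
    rw [hk, Nat.mul_div_cancel_left _ h2, hstep i]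
    have e : M i * sc f i * k = sc f i * (k * M i) := by ring
    rw [e, Nat.mul_div_cancel_left _ h1]
  obtain ⟨i, hi, hbad⟩ := exists_scale F.isLaw (V := Vw F) (vw_det F) (L := Real.log 2)
    (fun i ω hω => by
      have := vw_hk F i 1 hω
      push_cast at this
      linarith) (sc f) M B (sc_pos f) hM0 hB0 hstep (N := S) (by omega) hBM hx hr
  have hLB : J = M i * sc f i * B (i + 1) := by
    rw [hBv (i + 1) hi, ← hstep i, Nat.mul_div_cancel' (hdv (i + 1) hi)]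
  have h1 := hJ₁ i (B (i + 1)) J hLB (hJge i hi) F hBd
  rw [hstep i] at hbad
  set bad := ∑ w ∈ range (B (i + 1)), Ex F.p (fun ω => ind
      (2 * x ≤ rk F.p (Vw F) (w * (M i * sc f i)) (M i * sc f i) ω ∧
        r ≤ low F.p (Vw F) (w * (M i * sc f i)) (M i) (sc f i) x ω)) with hbaddef
  have h2 : (m + 1) * (((M i * sc f i : ℕ) : ℝ) * Real.log 2) * bad ≤ ε / 4 * J := by
    have h3 : (m + 1) * (((M i * sc f i : ℕ) : ℝ) * Real.log 2) * bad ≤
        (m + 1) * (((M i * sc f i : ℕ) : ℝ) * Real.log 2) *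
          (B (i + 1) * (Real.log 2 ^ 2 / (S * r * x ^ 2))) :=
      mul_le_mul_of_nonneg_left hbad (by positivity)
    have h4 : (J : ℝ) = ((M i * sc f i : ℕ) : ℝ) * B (i + 1) := by exact_mod_cast hLB
    have h5 : (m + 1) * (((M i * sc f i : ℕ) : ℝ) * Real.log 2) *
          (B (i + 1) * (Real.log 2 ^ 2 / (S * r * x ^ 2))) =
        ((m + 1) * Real.log 2 ^ 3 / (S * r * x ^ 2)) * J := by
      rw [h4]
      ring
    rw [h5] at h3
    refine h3.trans (mul_le_mul_of_nonneg_right ?_ (Nat.cast_nonneg J))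
    rw [div_le_iff₀ (by positivity)]
    rw [div_le_iff₀ (by positivity)] at hSb
    have h6 : Real.log 2 ^ 3 ≤ 1 := by
      have := pow_le_pow_left₀ hl2.le (show Real.log 2 ≤ 1 by linarith) 3
      rwa [one_pow] at this
    have h7 : ((m : ℝ) + 1) * Real.log 2 ^ 3 ≤ (m + 1) * 1 :=
      mul_le_mul_of_nonneg_left h6 (by positivity)
    linarith
  rw [hredT] at h1
  linarith

end Pool.KN
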